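import Mathlib
import Pool.Agent.W793.SCH.Stm3

set_option autoImplicit false

open MeasureTheory ProbabilityTheory MvPolynomial
open scoped MatrixOrder NNReal ENNReal

namespace Pool.Agent.W933.SCH

open Pool.Agent.W793.SCH

noncomputable section

/-- The moments of the standard normal distribution. -/
def mo (n : ℕ) : ℝ := ∫ x : ℝ, x ^ n ∂(gaussianReal 0 1)

def c0 : ℝ := (√(2 * Real.pi * ((1 : ℝ≥0) : ℝ)))⁻¹

theorem pdf_eq (x : ℝ) : gaussianPDFReal 0 1 x = c0 * Real.exp (-(1 / 2) * x ^ 2) := by
  rw [gaussianPDFReal_def]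
  simp only [c0]
  congr 2
  push_cast
  ring

theorem integ (n : ℕ) : Integrable (fun x : ℝ => x ^ n * (c0 * Real.exp (-(1 / 2) * x ^ 2))) := by
  have h := integrable_rpow_mul_exp_neg_mul_sq (b := 1 / 2) (by norm_num) (s := (n : ℝ))
    (by have := Nat.cast_nonneg (α := ℝ) n; linarith)
  simp only [Real.rpow_natCast] at h
  refine (h.const_mul c0).congr (ae_of_all _ fun x => ?_)
  show c0 * (x ^ n * Real.exp (-(1 / 2) * x ^ 2)) = x ^ n * (c0 * Real.exp (-(1 / 2) * x ^ 2))
  ring

theorem mo_succ (n : ℕ) : mo (n + 1) = n * mo (n - 1) := by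
  unfold mo
  rw [integral_gaussianReal_eq_integral_smul (by norm_num),
    integral_gaussianReal_eq_integral_smul (by norm_num)]
  simp only [pdf_eq, smul_eq_mul]
  have key := integral_mul_deriv_eq_deriv_mul_of_integrable (u := fun x : ℝ => x ^ n)
    (u' := fun x : ℝ => n * x ^ (n - 1))
    (v := fun x => -(c0 * Real.exp (-(1 / 2) * x ^ 2)))
    (v' := fun x => x * (c0 * Real.exp (-(1 / 2) * x ^ 2)))
    (fun x _ => hasDerivAt_pow n x)
    (fun x _ => by
      have h1 : HasDerivAt (fun x : ℝ => -(1 / 2) * x ^ 2) (-(1 / 2) * (2 * x)) x := by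
        simpa using (hasDerivAt_pow 2 x).const_mul (-(1 / 2) : ℝ)
      have h2 := ((h1.exp).const_mul c0).neg
      refine h2.congr_deriv ?_
      ring)
    (by
      refine (integ (n + 1)).congr (ae_of_all _ fun x => ?_)
      show x ^ (n + 1) * (c0 * Real.exp (-(1 / 2) * x ^ 2)) =
        x ^ n * (x * (c0 * Real.exp (-(1 / 2) * x ^ 2)))
      ring)
    (by
      refine ((integ (n - 1)).const_mul (-(n : ℝ))).congr (ae_of_all _ fun x => ?_)
      show -(n : ℝ) * (x ^ (n - 1) * (c0 * Real.exp (-(1 / 2) * x ^ 2))) =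
        (n * x ^ (n - 1)) * (-(c0 * Real.exp (-(1 / 2) * x ^ 2)))
      ring)
    (by
      refine ((integ n).const_mul (-1 : ℝ)).congr (ae_of_all _ fun x => ?_)
      show -1 * (x ^ n * (c0 * Real.exp (-(1 / 2) * x ^ 2))) =
        x ^ n * (-(c0 * Real.exp (-(1 / 2) * x ^ 2)))
      ring)
  rw [← integral_neg] at key
  rw [← integral_const_mul]
  calc ∫ x : ℝ, c0 * Real.exp (-(1 / 2) * x ^ 2) * x ^ (n + 1)
      = ∫ x : ℝ, x ^ n * (x * (c0 * Real.exp (-(1 / 2) * x ^ 2))) := by
        congr 1; funext x; ring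
    _ = ∫ x : ℝ, -(n * x ^ (n - 1) * -(c0 * Real.exp (-(1 / 2) * x ^ 2))) := key
    _ = _ := by congr 1; funext x; ring

theorem int_pow (n : ℕ) : Integrable (fun x : ℝ => x ^ n) (gaussianReal 0 1) := by
  have h := (memLp_id_gaussianReal' (μ := 0) (v := 1) (n : ℝ≥0∞) (by simp)).integrable_norm_pow'
  refine (integrable_norm_iff ?_).1 ?_
  · exact (continuous_pow n).aestronglyMeasurable
  · simpa [norm_pow] using h

section

variable {ι : Type} [Fintype ι]

variable (ι) in
/-- The standard Gaussian measure. -/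
def P0 : Measure (ι → ℝ) := Measure.pi (fun _ => gaussianReal 0 1)

instance : IsProbabilityMeasure (P0 ι) := by unfold P0; infer_instance

/-- The expectation of a polynomial. -/
def E (f : MvPolynomial ι ℝ) : ℝ := ∫ g, eval g f ∂(P0 ι)

theorem eval_mono (u : ι →₀ ℕ) (a : ℝ) (g : ι → ℝ) :
    eval g (monomial u a) = a * ∏ k, g k ^ (u k) := by
  rw [eval_monomial, Finsupp.prod_fintype _ _ (fun i => pow_zero _)]

theorem int_mono (u : ι →₀ ℕ) (a : ℝ) :
    Integrable (fun g : ι → ℝ => eval g (monomial u a)) (P0 ι) := by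
  simp only [eval_mono]
  refine Integrable.const_mul ?_ a
  exact Integrable.fintype_prod (f := fun (k : ι) (x : ℝ) => x ^ (u k)) fun k => int_pow _

theorem E_mono (u : ι →₀ ℕ) (a : ℝ) : E (monomial u a : MvPolynomial ι ℝ) = a * ∏ k, mo (u k) := by
  unfold E
  simp only [eval_mono]
  rw [integral_const_mul]
  congr 1
  exact integral_fintype_prod_eq_prod (fun (k : ι) (x : ℝ) => x ^ (u k))

theorem int_eval (f : MvPolynomial ι ℝ) : Integrable (fun g : ι → ℝ => eval g f) (P0 ι) := by
  refine MvPolynomial.induction_on' f (fun u a => int_mono u a) (fun p q hp hq => ?_)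
  simp only [map_add]
  exact hp.add hq

theorem E_add (f g : MvPolynomial ι ℝ) : E (f + g) = E f + E g := by
  unfold E
  simp only [map_add]
  exact integral_add (int_eval f) (int_eval g)

theorem E_C_mul (c : ℝ) (f : MvPolynomial ι ℝ) : E (C c * f) = c * E f := by
  unfold E
  simp only [map_mul, eval_C]
  exact integral_const_mul _ _

theorem E_sum {κ : Type*} (s : Finset κ) (f : κ → MvPolynomial ι ℝ) :
    E (∑ k ∈ s, f k) = ∑ k ∈ s, E (f k) := by
  unfold E
  simp only [map_sum]
  exact integral_finsetSum _ fun k _ => int_eval _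

variable [DecidableEq ι]

theorem stein (j : ι) (f : MvPolynomial ι ℝ) : E (X j * f) = E (pderiv j f) := by
  refine MvPolynomial.induction_on' f (fun u a => ?_) (fun p q hp hq => ?_)
  · rw [pderiv_monomial, E_mono]
    have h1 : (X j * monomial u a : MvPolynomial ι ℝ) = monomial (Finsupp.single j 1 + u) a := by
      rw [X, monomial_mul, one_mul]
    rw [h1, E_mono, mul_assoc]
    congr 1
    rw [← Finset.mul_prod_erase Finset.univ _ (Finset.mem_univ j),
      ← Finset.mul_prod_erase Finset.univ (fun k => mo ((u - Finsupp.single j 1 : ι →₀ ℕ) k))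
        (Finset.mem_univ j)]
    have h2 : mo ((Finsupp.single j 1 + u : ι →₀ ℕ) j) = u j * mo ((u - Finsupp.single j 1 : ι →₀ ℕ) j) := by
      have e1 : (Finsupp.single j 1 + u : ι →₀ ℕ) j = u j + 1 := by
        rw [Finsupp.add_apply, Finsupp.single_eq_same]; ring
      have e2 : (u - Finsupp.single j 1 : ι →₀ ℕ) j = u j - 1 := by
        rw [Finsupp.tsub_apply, Finsupp.single_eq_same]
      rw [e1, e2, mo_succ]
    rw [h2, mul_assoc]
    congr 2
    refine Finset.prod_congr rfl fun k hk => ?_
    have hk' : k ≠ j := Finset.ne_of_mem_erase hk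
    rw [Finsupp.add_apply, Finsupp.tsub_apply, Finsupp.single_eq_of_ne hk', zero_add, tsub_zero]
  · rw [mul_add, E_add, hp, hq, map_add, E_add]

omit [Fintype ι] [DecidableEq ι] in
theorem deriv_list {κ : Type*} (D : Derivation ℝ (MvPolynomial ι ℝ) (MvPolynomial ι ℝ))
    (f : κ → MvPolynomial ι ℝ) (l : List κ) :
    D (l.map f).prod = ∑ i : Fin l.length, D (f (l.get i)) * ((l.eraseIdx i).map f).prod := by
  induction l with
  | nil => simp
  | cons a l ih =>
    simp only [List.map_cons, List.prod_cons, Derivation.leibniz, smul_eq_mul, List.length_cons]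
    rw [Fin.sum_univ_succ]
    simp only [List.get_cons_zero, Fin.val_zero, List.eraseIdx_cons_zero, Fin.val_succ,
      List.eraseIdx_cons_succ, List.get_cons_succ', List.map_cons, List.prod_cons]
    rw [ih, Finset.mul_sum, add_comm, mul_comm]
    congr 1
    refine Finset.sum_congr rfl fun i _ => ?_
    ring

/-- A linear functional. -/
def lin (v : ι → ℝ) : MvPolynomial ι ℝ := ∑ j, C (v j) * X j

theorem pderiv_lin (v : ι → ℝ) (j : ι) : pderiv j (lin v) = C (v j) := by
  unfold lin
  rw [map_sum, Finset.sum_eq_single j]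
  · rw [Derivation.leibniz]
    simp
  · intro k _ hk
    rw [Derivation.leibniz]
    simp [pderiv_X_of_ne hk]
  · intro h; exact absurd (Finset.mem_univ j) h

theorem iss {κ : Type} (b : κ → ι → ℝ) : ∀ (n : ℕ) (L : List κ), L.length = n →
    E (L.map fun l => lin (b l)).prod = haf (fun l l' => ∑ j, b l j * b l' j) L := by
  intro n
  induction n using Nat.strong_induction_on with
  | _ n ih =>
    intro L hL
    cases L with
    | nil =>
      rw [haf]
      simp only [List.map_nil, List.prod_nil]
      have h1 : (1 : MvPolynomial ι ℝ) = monomial 0 1 := rfl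
      unfold E
      simp
    | cons a l =>
      rw [haf]
      simp only [List.map_cons, List.prod_cons]
      have h1 : lin (b a) * (l.map fun l => lin (b l)).prod =
          ∑ j, C (b a j) * (X j * (l.map fun l => lin (b l)).prod) := by
        unfold lin
        rw [Finset.sum_mul]
        exact Finset.sum_congr rfl fun j _ => mul_assoc _ _ _
      rw [h1, E_sum]
      simp only [E_C_mul, stein, deriv_list, pderiv_lin, E_sum]
      simp only [Finset.mul_sum, Finset.sum_mul]
      rw [Finset.sum_comm]
      refine Finset.sum_congr rfl fun i _ => Finset.sum_congr rfl fun j _ => ?_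
      rw [ih (l.eraseIdx i).length ?_ _ rfl]
      · ring
      · rw [List.length_eraseIdx_of_lt i.isLt]
        simp only [List.length_cons] at hL
        have := i.isLt
        omega

/-- The square root of the covariance. -/
theorem exists_sqrt (A : ι → ι → ℝ) (hs : ∀ l l', A l l' = A l' l)
    (hp : ∀ s : ι → ℝ, 0 ≤ ∑ l, ∑ l', s l * s l' * A l l') :
    ∃ b : ι → ι → ℝ, ∀ l l', A l l' = ∑ j, b l j * b l' j := by
  have h1 : (Matrix.of A).PosSemidef := by
    refine Matrix.PosSemidef.of_dotProduct_mulVec_nonneg ?_ ?_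
    · ext i j
      simp [Matrix.conjTranspose_apply, hs j i]
    · intro x
      have h2 := hp x
      have h3 : star x ⬝ᵥ (Matrix.of A).mulVec x = ∑ l, ∑ l', x l * x l' * A l l' := by
        simp only [dotProduct, Matrix.mulVec, Finset.mul_sum, Matrix.of_apply]
        refine Finset.sum_congr rfl fun l _ => Finset.sum_congr rfl fun l' _ => ?_
        simp only [Pi.star_apply, star_trivial]
        ring
      rw [h3]
      exact h2
  obtain ⟨B, hB⟩ := CStarAlgebra.nonneg_iff_eq_star_mul_self.mp h1.nonneg
  refine ⟨fun l j => B j l, fun l l' => ?_⟩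
  have h2 := congrFun (congrFun hB l) l'
  rw [Matrix.mul_apply] at h2
  simpa [Matrix.star_apply] using h2

/-- The linear map. -/
def T (b : ι → ι → ℝ) (g : ι → ℝ) : ι → ℝ := fun l => ∑ j, b l j * g j

omit [DecidableEq ι] in
theorem meas_T (b : ι → ι → ℝ) : Measurable (T b) :=
  measurable_pi_lambda _ fun l => Finset.measurable_sum _ fun j _ =>
    (measurable_pi_apply j).const_mul _

omit [DecidableEq ι] in
theorem eval_lin (v g : ι → ℝ) : eval g (lin v) = ∑ j, v j * g j := by
  unfold lin
  simp

omit [DecidableEq ι] in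
theorem prod_T (b : ι → ι → ℝ) (g : ι → ℝ) (L : List ι) :
    (L.map (T b g)).prod = eval g (L.map fun l => lin (b l)).prod := by
  rw [map_list_prod, List.map_map]
  congr 2
  funext l
  exact (eval_lin _ _).symm

omit [Fintype ι] [DecidableEq ι] in
theorem meas_prod (L : List ι) : Measurable (fun y : ι → ℝ => (L.map y).prod) := by
  induction L with
  | nil => simp
  | cons a l ih =>
    simp only [List.map_cons, List.prod_cons]
    exact (measurable_pi_apply a).mul ih

omit [DecidableEq ι] in
theorem int_list (b : ι → ι → ℝ) (L : List ι) :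
    Integrable (fun y : ι → ℝ => (L.map y).prod) ((P0 ι).map (T b)) := by
  rw [integrable_map_measure (meas_prod L).aestronglyMeasurable (meas_T b).aemeasurable]
  refine (int_eval (L.map fun l => lin (b l)).prod).congr (ae_of_all _ fun g => ?_)
  exact (prod_T b g L).symm

theorem int_haf (b : ι → ι → ℝ) (L : List ι) :
    ∫ y, (L.map y).prod ∂((P0 ι).map (T b)) = haf (fun l l' => ∑ j, b l j * b l' j) L := by
  rw [integral_map (meas_T b).aemeasurable (meas_prod L).aestronglyMeasurable]
  rw [← iss b L.length L rfl]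
  unfold E
  simp only [prod_T]

omit [DecidableEq ι] in
theorem char (b : ι → ι → ℝ) (s : ι → ℝ) :
    Integrable (fun y : ι → ℝ => Complex.exp ((∑ l, s l * y l : ℝ) * Complex.I))
      ((P0 ι).map (T b)) ∧
    ∫ y, Complex.exp ((∑ l, s l * y l : ℝ) * Complex.I) ∂((P0 ι).map (T b)) =
      ((Real.exp (-(1 / 2 * ∑ l, ∑ l', s l * s l' * ∑ j, b l j * b l' j)) : ℝ) : ℂ) := by
  have hP : IsProbabilityMeasure ((P0 ι).map (T b)) :=
    Measure.isProbabilityMeasure_map (meas_T b).aemeasurable
  have hm : Measurable (fun y : ι → ℝ => Complex.exp ((∑ l, s l * y l : ℝ) * Complex.I)) := by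
    refine Complex.measurable_exp.comp ?_
    refine Measurable.mul_const ?_ _
    refine Complex.measurable_ofReal.comp ?_
    exact Finset.measurable_sum _ fun j _ => (measurable_pi_apply j).const_mul _
  refine ⟨?_, ?_⟩
  · refine (integrable_const (1 : ℝ)).mono' hm.aestronglyMeasurable (ae_of_all _ fun y => ?_)
    rw [Complex.norm_exp_ofReal_mul_I]
  · rw [integral_map (meas_T b).aemeasurable hm.aestronglyMeasurable]
    set c : ι → ℝ := fun j => ∑ l, s l * b l j with hc
    have h1 : ∀ g : ι → ℝ, Complex.exp ((∑ l, s l * T b g l : ℝ) * Complex.I) =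
        ∏ j, Complex.exp ((c j : ℂ) * (g j : ℂ) * Complex.I) := by
      intro g
      rw [← Complex.exp_sum]
      congr 1
      rw [← Finset.sum_mul]
      congr 1
      have h2 : ∑ l, s l * T b g l = ∑ j, c j * g j := by
        simp only [T, hc, Finset.mul_sum, Finset.sum_mul]
        rw [Finset.sum_comm]
        refine Finset.sum_congr rfl fun l _ => Finset.sum_congr rfl fun l' _ => ?_
        ring
      rw [h2]
      push_cast
      rfl
    simp only [h1]
    unfold P0
    rw [integral_fintype_prod_eq_prod (fun (j : ι) (x : ℝ) =>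
      Complex.exp ((c j : ℂ) * (x : ℂ) * Complex.I))]
    have h3 : ∀ j, ∫ x : ℝ, Complex.exp ((c j : ℂ) * (x : ℂ) * Complex.I) ∂(gaussianReal 0 1) =
        Complex.exp (-((c j : ℂ) ^ 2 / 2)) := by
      intro j
      rw [← charFun_apply_real, charFun_gaussianReal]
      congr 1
      push_cast
      ring
    simp only [h3]
    rw [← Complex.exp_sum]
    push_cast
    congr 1
    have h4 : ∑ l, ∑ l', s l * s l' * ∑ j, b l j * b l' j = ∑ j, c j ^ 2 := by
      simp only [hc, sq, Finset.sum_mul_sum]
      simp only [Finset.mul_sum]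
      rw [Finset.sum_comm]
      refine (Finset.sum_congr rfl fun _ _ => Finset.sum_comm).trans ?_
      rw [Finset.sum_comm]
      refine Finset.sum_congr rfl fun j _ => ?_
      rw [Finset.sum_comm]
      refine Finset.sum_congr rfl fun l _ => Finset.sum_congr rfl fun l' _ => ?_
      ring
    have h5 := congrArg (fun x : ℝ => (x : ℂ)) h4
    push_cast at h5
    rw [h5, Finset.mul_sum, ← Finset.sum_neg_distrib]
    refine Finset.sum_congr rfl fun j _ => ?_
    ring

end

/-- The double factorials. -/
def cc : ℕ → ℝ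
  | 0 => 1
  | j + 1 => (2 * j + 1) * cc j

theorem cc_pos (j : ℕ) : 0 < cc j := by
  induction j with
  | zero => exact one_pos
  | succ j ih =>
    unfold cc
    positivity

theorem haf_rep {ι : Type} (A : ι → ι → ℝ) (l : ι) (j : ℕ) :
    haf A (List.replicate (2 * j) l) = cc j * A l l ^ j := by
  induction j with
  | zero => simp [haf, cc]
  | succ j ih =>
    have h1 : List.replicate (2 * (j + 1)) l = l :: List.replicate (2 * j + 1) l := rfl
    rw [h1, haf]
    have h2 : ∀ i : Fin (List.replicate (2 * j + 1) l).length,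
        A l ((List.replicate (2 * j + 1) l).get i) *
          haf A ((List.replicate (2 * j + 1) l).eraseIdx i) = A l l * (cc j * A l l ^ j) := by
      intro i
      have hi : (i : ℕ) < 2 * j + 1 := by
        have h3 := i.isLt
        have h4 : (List.replicate (2 * j + 1) l).length = 2 * j + 1 := List.length_replicate
        omega
      rw [List.eraseIdx_replicate, if_pos hi, Nat.add_sub_cancel, ih]
      congr 2
      simp
    rw [Finset.sum_congr rfl fun i _ => h2 i, Finset.sum_const, Finset.card_univ, Fintype.card_fin,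
      List.length_replicate]
    rw [cc]
    simp only [nsmul_eq_mul]
    push_cast
    ring

theorem t_ISS : S_ISS := by
  intro p
  refine ⟨1 + ∑ j ∈ Finset.range (p + 1), cc j, ?_, ?_⟩
  · have := Finset.sum_nonneg fun (j : ℕ) (_ : j ∈ Finset.range (p + 1)) => (cc_pos j).le
    linarith
  intro ι _ _ A hs hp
  obtain ⟨b, hb⟩ := exists_sqrt A hs hp
  have hA : (fun l l' => ∑ j, b l j * b l' j) = A := by
    funext l l'
    exact (hb l l').symm
  have hP : IsProbabilityMeasure ((P0 ι).map (T b)) :=
    Measure.isProbabilityMeasure_map (meas_T b).aemeasurable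
  refine ⟨(P0 ι).map (T b), hP, ?_, ?_, ?_, ?_⟩
  · intro s
    obtain ⟨h1, h2⟩ := char b s
    have h3 := congrArg Complex.re h2
    rw [Complex.ofReal_re] at h3
    have h4 : ∀ l l', ∑ j, b l j * b l' j = A l l' := fun l l' => (hb l l').symm
    simp only [h4] at h3
    rw [← h3]
    have h5 := integral_re h1
    simp only [RCLike.re_to_complex, Complex.exp_ofReal_mul_I_re] at h5
    exact h5
  · intro s
    obtain ⟨h1, h2⟩ := char b s
    have h3 := congrArg Complex.im h2
    rw [Complex.ofReal_im] at h3
    have h5 := integral_im h1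
    simp only [RCLike.im_to_complex, Complex.exp_ofReal_mul_I_im] at h5
    rw [h5, h3]
  · intro l j hj
    have hmeas : Measurable (fun y : ι → ℝ => |y l| ^ j) :=
      ((measurable_pi_apply l).abs).pow_const j
    have hint := int_list b (List.replicate (2 * j) l)
    have hval := int_haf b (List.replicate (2 * j) l)
    rw [hA, haf_rep] at hval
    simp only [List.map_replicate, List.prod_replicate] at hint hval
    have hAll : 0 ≤ A l l := by
      rw [hb]
      exact Finset.sum_nonneg fun j _ => mul_self_nonneg _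
    set t : ℝ := (1 + A l l) ^ j with ht
    have ht1 : 1 ≤ t := one_le_pow₀ (by linarith)
    have ht0 : 0 < t := by linarith
    have hle : ∀ y : ι → ℝ, |y l| ^ j ≤ 1 / 2 * t + 1 / 2 * t⁻¹ * (y l) ^ (2 * j) := by
      intro y
      have h1 : (y l) ^ (2 * j) = (|y l| ^ j) ^ 2 := by
        rw [← pow_mul, mul_comm j 2, pow_mul |y l|, sq_abs, ← pow_mul]
      rw [h1]
      have h2 : 0 ≤ (|y l| ^ j - t) ^ 2 * (1 / 2 * t⁻¹) := by positivity
      have h3 : (|y l| ^ j - t) ^ 2 * (1 / 2 * t⁻¹) =
          1 / 2 * t + 1 / 2 * t⁻¹ * (|y l| ^ j) ^ 2 - |y l| ^ j := by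
        field_simp
        ring
      linarith
    have hint2 : Integrable (fun y : ι → ℝ => 1 / 2 * t + 1 / 2 * t⁻¹ * (y l) ^ (2 * j))
        ((P0 ι).map (T b)) := (integrable_const _).add (hint.const_mul _)
    have hint3 : Integrable (fun y : ι → ℝ => |y l| ^ j) ((P0 ι).map (T b)) := by
      refine hint2.mono' hmeas.aestronglyMeasurable (ae_of_all _ fun y => ?_)
      rw [Real.norm_of_nonneg (by positivity)]
      exact hle y
    refine ⟨hint3, ?_⟩
    refine (integral_mono hint3 hint2 hle).trans ?_
    rw [integral_add (integrable_const _) (hint.const_mul _), integral_const_mul (1 / 2 * t⁻¹), hval]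
    simp only [integral_const, probReal_univ, one_smul]
    have h6 : A l l ^ j ≤ t := pow_le_pow_left₀ hAll (by linarith) j
    have h7 : 1 / 2 * t⁻¹ * (cc j * A l l ^ j) ≤ 1 / 2 * cc j := by
      have h8 : t⁻¹ * A l l ^ j ≤ 1 := by
        rw [inv_mul_le_iff₀ ht0]
        linarith
      have h9 := mul_le_mul_of_nonneg_left h8 (mul_nonneg (by norm_num : (0 : ℝ) ≤ 1 / 2) (cc_pos j).le)
      calc 1 / 2 * t⁻¹ * (cc j * A l l ^ j) = 1 / 2 * cc j * (t⁻¹ * A l l ^ j) := by ring
        _ ≤ 1 / 2 * cc j * 1 := h9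
        _ = 1 / 2 * cc j := mul_one _
    have h10 : cc j ≤ ∑ j ∈ Finset.range (p + 1), cc j :=
      Finset.single_le_sum (f := cc) (fun j _ => (cc_pos j).le) (Finset.mem_range.2 (by omega))
    have h11 : cc j ≤ cc j * t := by
      nlinarith [cc_pos j]
    have h12 : cc j * t ≤ (∑ j ∈ Finset.range (p + 1), cc j) * t :=
      mul_le_mul_of_nonneg_right h10 ht0.le
    rw [add_mul, one_mul]
    have h13 := cc_pos j
    linarith
  · intro L _
    refine ⟨int_list b L, ?_⟩
    rw [int_haf, hA]

end

end Pool.Agent.W933.SCH
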